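import Pool.Agent.Helper27.UC.Goals6

/-!
PROJECT UC (MP_d3128a_ag), packet UC-ALLN: all degrees from the critical ones (helper79).
-/

set_option autoImplicit false

noncomputable section

namespace Pool.Agent.Helper79.UC.ALLN

open Pool.Agent.Helper27.UC (gd S_MON S_ONEN S_ALLN HN)

theorem choose_two' (k : ℕ) : 2 * (k + 1).choose 2 = k * (k + 1) := by
  induction k with
  | zero => rfl
  | succ k ih =>
    have h : (k + 1 + 1).choose 2 = (k + 1).choose 2 + (k + 1) := by
      rw [Nat.choose_succ_succ' (k + 1) 1, Nat.choose_one_right]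
      ring
    rw [h, mul_add, ih]
    ring

theorem choose_step (k : ℕ) : (k + 3).choose 2 = (k + 2).choose 2 + (k + 2) := by
  rw [Nat.choose_succ_succ' (k + 2) 1, Nat.choose_one_right]
  ring

/-- all the degrees from the critical ones -/
theorem all_of_one (hM : S_MON) (L : Multiset ℕ) (W : ℕ) (hpos : 0 < W)
    (hone : ∀ d, d * (d + 1) < 2 * W → 2 * W ≤ (d + 2) * (d + 3) →
      gd d L ≤ (d + 2).choose 2 - W) (d : ℕ) : gd d L ≤ (d + 2).choose 2 - W := by
  classical
  have hex : ∃ e, 2 * W ≤ (e + 1) * (e + 2) := ⟨2 * W, by nlinarith⟩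
  obtain ⟨e, he, hmin⟩ : ∃ e, 2 * W ≤ (e + 1) * (e + 2) ∧
      ∀ e' < e, ¬ 2 * W ≤ (e' + 1) * (e' + 2) :=
    ⟨Nat.find hex, Nat.find_spec hex, fun e' h => Nat.find_min hex h⟩
  have he1 : e * (e + 1) < 2 * W := by
    rcases Nat.eq_zero_or_pos e with h0 | h0
    · subst h0
      simpa using hpos
    · obtain ⟨f, rfl⟩ : ∃ f, e = f + 1 := ⟨e - 1, by omega⟩
      have := hmin f (by omega)
      push Not at this
      exact this
  have hb : ∀ k, gd (e + k) L + W ≤ (e + k + 2).choose 2 := by
    intro k
    induction k with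
    | zero =>
      have h1 := hone e he1 (he.trans (Nat.mul_le_mul (by omega) (by omega)))
      have h2 : 2 * (e + 2).choose 2 = (e + 1) * (e + 2) := choose_two' (e + 1)
      have h3 : W ≤ (e + 2).choose 2 := by omega
      rw [add_zero]
      omega
    | succ k ih =>
      have h1 := (hM (e + k) L).2
      have h2 := choose_step (e + k)
      have h3 : e + (k + 1) = e + k + 1 := by ring
      rw [h3]
      have h4 : e + k + 1 + 2 = e + k + 3 := by ring
      rw [h4]
      omega
  rcases le_or_gt e d with h | h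
  · obtain ⟨k, rfl⟩ := Nat.exists_eq_add_of_le h
    have := hb k
    omega
  · obtain ⟨f, rfl⟩ : ∃ f, e = f + 1 := ⟨e - 1, by omega⟩
    have h1 := hone f (lt_of_le_of_lt (Nat.mul_le_mul (by omega) (by omega)) he1)
      (by
        have h5 : (f + 1 + 1) * (f + 1 + 2) = (f + 2) * (f + 3) := by ring
        rw [h5] at he
        exact he)
    have h2 : 2 * (f + 2).choose 2 = (f + 1) * (f + 2) := choose_two' (f + 1)
    have h3 : (f + 1) * (f + 1 + 1) = (f + 1) * (f + 2) := by ring
    rw [h3] at he1
    have h4 : (f + 2).choose 2 - W = 0 := by omega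
    have h0 : gd f L = 0 := by omega
    have hm : ∀ k, gd d L ≤ gd (d + k) L := by
      intro k
      induction k with
      | zero => exact le_rfl
      | succ k ih => exact ih.trans (hM (d + k) L).1
    obtain ⟨k, rfl⟩ := Nat.exists_eq_add_of_le (show d ≤ f by omega)
    have := hm k
    omega

theorem sum_choose (L : Multiset ℕ) :
    (L.map fun v => v ^ 2).sum + L.sum = 2 * (L.map fun v => (v + 1).choose 2).sum := by
  induction L using Multiset.induction_on with
  | empty => simp
  | cons a L ih =>
    rw [Multiset.map_cons, Multiset.map_cons, Multiset.sum_cons, Multiset.sum_cons,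
      Multiset.sum_cons]
    have h := choose_two' a
    have h2 : a * (a + 1) = a ^ 2 + a := by ring
    rw [h2] at h
    omega

theorem t (hO : S_ONEN) (hM : S_MON) : S_ALLN := by
  intro n m b q d L hL
  have hs := sum_choose L
  refine all_of_one hM L _ ?_ (fun d h1 h2 => hO n m b q d L hL (by rw [hs]; exact h1)
    (by rw [hs]; exact h2)) d
  -- positivity
  obtain ⟨hc, hv, -, hn, -, hb, hm⟩ := hL
  by_contra hcon
  have h0 : (L.map fun v => (v + 1).choose 2).sum = 0 := by omega
  have hne : ∃ v, v ∈ L := by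
    rw [← Multiset.card_pos_iff_exists_mem, hc]
    omega
  obtain ⟨v, hvL⟩ := hne
  have h1 := (Multiset.sum_eq_zero_iff.1 h0) ((v + 1).choose 2) (Multiset.mem_map_of_mem _ hvL)
  have h2 := choose_two' v
  rw [h1] at h2
  have h3 : v = 0 := by
    rcases Nat.eq_zero_or_pos v with h | h
    · exact h
    · have : 0 < v * (v + 1) := by positivity
      omega
  have h4 := (hv v hvL).2
  have h5 : n ≤ n ^ 5 := Nat.le_self_pow (by norm_num) n
  omega

end Pool.Agent.Helper79.UC.ALLN
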