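import Pool.Agent.Helper27.UC.Goals6

/-!
PROJECT UC (MP_d3128a_ag), packet UC-FN: the almost equal clause (helper79).
-/

set_option autoImplicit false

noncomputable section

namespace Pool.Agent.Helper79.UC.FN

open Pool.Agent.Helper1.All

open Pool.Agent.Helper27.UC (gd S_ALLN S_BAL S_GDG S_FN HN)

theorem t (hA : S_ALLN) (hB : S_BAL) (hG : S_GDG) : S_FN := by
  classical
  obtain ⟨N1, hB⟩ := hB
  refine ⟨max N1 (10 ^ 10), fun n d m hC hq hm => ?_⟩
  apply hG
  have hC1 : 10 ^ 10 ≤ max N1 (10 ^ 10) := le_max_right _ _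
  have hN1 : N1 ≤ n := (le_max_left _ _).trans hC
  have hn : 10 ^ 10 ≤ n := hC1.trans hC
  have : Nonempty (Fin n) := ⟨⟨0, by omega⟩⟩
  obtain ⟨i0, hi0⟩ := Finite.exists_max m
  obtain ⟨j0, hj0⟩ := Finite.exists_min m
  obtain ⟨L, hLd⟩ : ∃ L, L = Multiset.map m Finset.univ.val := ⟨_, rfl⟩
  have hcard : Multiset.card L = n := by
    rw [hLd, Multiset.card_map]
    exact Finset.card_fin n
  have hmem : ∀ v ∈ L, ∃ i, m i = v := by
    intro v hv
    rw [hLd] at hv
    obtain ⟨i, -, hi⟩ := Multiset.mem_map.1 hv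
    exact ⟨i, hi⟩
  have hv1 : ∀ v ∈ L, v ≤ m i0 ∧ m i0 ≤ v + (m i0 - m j0) := by
    intro v hv
    obtain ⟨i, rfl⟩ := hmem v hv
    have h1 := hi0 i
    have h2 := hj0 i
    exact ⟨h1, by omega⟩
  have hv2 : ∀ v ∈ L, v ≤ m i0 ∧ m i0 ≤ 2 * v := by
    intro v hv
    obtain ⟨i, rfl⟩ := hmem v hv
    exact ⟨hi0 i, (hm i0 i).2⟩
  have hfin : L.toFinset = Finset.univ.image m := by
    rw [hLd]
    rfl
  have key : gd d L ≤ (d + 2).choose 2 - (L.map fun v => (v + 1).choose 2).sum := by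
    rcases le_total (m i0) (n ^ 5) with h | h
    · exact hB L n (m i0) d hcard hN1 hv2 h
    · refine hA n (m i0) (m i0 - m j0) (Finset.univ.image m).card d L
        ⟨hcard, hv1, by rw [hfin], hn, ?_, ?_, h⟩
      · refine le_trans (Nat.pow_le_pow_left (Nat.mul_le_mul_right _ ?_) 2) hq
        exact le_trans (by norm_num) hC1
      · refine le_trans (Nat.mul_le_mul_right _ ?_) (hm i0 j0).1
        exact le_trans (by norm_num) hC1
  have hsum : (L.map fun v => (v + 1).choose 2).sum = ∑ i, (m i + 1).choose 2 := by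
    rw [hLd, Multiset.map_map]
    rfl
  rw [hsum] at key
  rw [← hLd]
  unfold vdim
  have hcast : (∑ i, (Nat.choose (m i + 1) 2 : ℤ)) = ((∑ i, (m i + 1).choose 2 : ℕ) : ℤ) := by
    push_cast
    rfl
  rw [hcast]
  rcases le_total (∑ i, (m i + 1).choose 2) ((d + 2).choose 2) with h | h
  · rw [← Nat.cast_sub h]
    exact le_trans (by exact_mod_cast key) (le_max_left _ _)
  · rw [Nat.sub_eq_zero_of_le h] at key
    exact le_trans (by exact_mod_cast key) (le_max_right _ _)

end Pool.Agent.Helper79.UC.FN
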