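import Pool.Agent.Helper27.UC.Goals8
import Pool.Agent.Helper79.UC.ALLN

/-!
PROJECT UC (MP_d3128a_ag), packet UC-ALLH: all degrees from the critical ones, repeated multiplicities, explicit
constants (helper79).
-/

set_option autoImplicit false

noncomputable section

namespace Pool.Agent.Helper79.UC.ALLH

open Pool.Agent.Helper27.UC (gd S_MON)

open Pool.Agent.Helper79.UC.ALLN (all_of_one sum_choose)

theorem t (hO : Pool.Agent.Helper27.UC.S_ONEH) (hM : S_MON) : Pool.Agent.Helper27.UC.S_ALLH := by
  intro c Q M d g P hL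
  have hs := sum_choose (4 • g + P.map Prod.snd)
  have hL' := hL
  obtain ⟨-, hQ, hMs, -, -, -, -, hM0, -, -⟩ := hL'
  rw [← hQ, ← hMs] at hs
  refine all_of_one hM _ _ ?_ (fun d h1 h2 => hO c Q M d g P hL ⟨by rw [hs]; exact h1,
    by rw [hs]; exact h2⟩) d
  omega

end Pool.Agent.Helper79.UC.ALLH
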