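import Pool.Agent.Helper27.UC.Goals4
import Pool.Agent.Helper90.UC.MONO
import Pool.Agent.Helper15.UC.CNV

/-!
PROJECT UC (MP_d3128a_ag), packet UC-FV: the final form of the unequal clause (helper79).
-/

set_option autoImplicit false

noncomputable section

namespace Pool.Agent.Helper79.UC.FV

open Module Pool.Agent.Helper97.Tate Pool.Agent.Helper1.All

open Pool.Agent.Helper27.UC (gd rp LV S_ALLV S_GDG S_FV)

open Pool.Agent.Helper90.UC (gd_one gd_mono gd_simple)

theorem gd_zero (d : ℕ) : gd d 0 ≤ (d + 2).choose 2 := by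
  have h := gd_simple Pool.Agent.Helper15.UC.CNV.t d 0
  simpa using h

theorem small {n : ℕ} (d : ℕ) (m : Fin n → ℕ) (l : Multiset ℕ) (s : Finset (Fin n))
    (hs : ∀ i ∈ s, m i < 2) :
    gd d (l + ∑ i ∈ s, ({m i} : Multiset ℕ)) ≤ gd d l - ∑ i ∈ s, (m i + 1).choose 2 := by
  classical
  induction s using Finset.induction_on with
  | empty => simp
  | insert a s ha ih =>
    have ih' := ih fun i hi => hs i (Finset.mem_insert_of_mem hi)
    have h1 := hs a (Finset.mem_insert_self a s)
    rw [Finset.sum_insert ha, Finset.sum_insert ha]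
    have h2 : l + ({m a} + ∑ i ∈ s, ({m i} : Multiset ℕ)) =
        (l + ∑ i ∈ s, ({m i} : Multiset ℕ)) + {m a} := by
      rw [add_comm ({m a} : Multiset ℕ), add_assoc]
    rw [h2]
    have h3 : m a = 0 ∨ m a = 1 := by omega
    rcases h3 with h3 | h3
    · rw [h3]
      have h4 := gd_mono d (l + ∑ i ∈ s, ({m i} : Multiset ℕ)) {0}
      have h5 : (0 + 1).choose 2 = 0 := by decide
      rw [h5, zero_add]
      exact h4.trans ih'
    · rw [h3]
      have h4 := gd_one d (l + ∑ i ∈ s, ({m i} : Multiset ℕ))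
      have h5 : (1 + 1).choose 2 = 1 := by decide
      rw [h5, add_comm _ ({1} : Multiset ℕ), Multiset.singleton_add]
      omega

theorem t (hA : S_ALLV) (hG : S_GDG) : S_FV := by
  classical
  intro c n d m hc hV hn hall
  apply hG
  -- the data
  obtain ⟨V, hVd⟩ : ∃ V, V = (Finset.univ.image m).filter (fun x => 2 ≤ x) := ⟨_, rfl⟩
  obtain ⟨A, hAd⟩ : ∃ A, A = Finset.univ.filter (fun i => 2 ≤ m i) := ⟨_, rfl⟩
  obtain ⟨B, hBd⟩ : ∃ B, B = Finset.univ.filter (fun i => ¬ 2 ≤ m i) := ⟨_, rfl⟩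
  rw [← hVd] at hV
  rw [← hAd] at hn
  rw [← hAd] at hall
  let N : ℕ → ℕ := fun x => (Finset.univ.filter (fun j => m j = x)).card
  have hVA : A.image m = V := by
    ext x
    rw [hAd, hVd]
    simp only [Finset.mem_image, Finset.mem_filter, Finset.mem_univ, true_and]
    constructor
    · rintro ⟨i, h1, h2⟩
      exact ⟨⟨i, h2⟩, by omega⟩
    · rintro ⟨⟨i, h1⟩, h2⟩
      exact ⟨i, by omega, h1⟩
  have hV2 : ∀ x ∈ V, 2 ≤ x := by
    intro x hx
    rw [hVd] at hx
    exact (Finset.mem_filter.1 hx).2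
  have hfil : ∀ x ∈ V, A.filter (fun j => m j = x) = Finset.univ.filter (fun j => m j = x) := by
    intro x hx
    have h2 := hV2 x hx
    rw [hAd]
    ext j
    simp only [Finset.mem_filter, Finset.mem_univ, true_and]
    constructor
    · exact fun h => h.2
    · exact fun h => ⟨by omega, h⟩
  have hsum : ∀ F : ℕ → ℕ, ∑ i ∈ A, F (m i) = ∑ x ∈ V, N x * F x := by
    intro F
    rw [Finset.sum_comp F m, hVA]
    refine Finset.sum_congr rfl fun x hx => ?_
    rw [hfil x hx, smul_eq_mul]
  have hmul : ∑ i ∈ A, ({m i} : Multiset ℕ) = ∑ x ∈ V, rp (N x) x := by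
    rw [Finset.sum_comp (fun x => ({x} : Multiset ℕ)) m, hVA]
    refine Finset.sum_congr rfl fun x hx => ?_
    rw [hfil x hx, Multiset.nsmul_singleton]
  have hAB : Multiset.map m Finset.univ.val =
      ∑ x ∈ V, rp (N x) x + ∑ i ∈ B, ({m i} : Multiset ℕ) := by
    rw [← hmul, hAd, hBd, Finset.sum_filter_add_sum_filter_not]
    have h1 : ∑ i, ({m i} : Multiset ℕ) =
        (Multiset.map (fun i => ({m i} : Multiset ℕ)) Finset.univ.val).sum := rfl
    rw [h1]
    have h2 : Multiset.map (fun i => ({m i} : Multiset ℕ)) Finset.univ.val =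
        Multiset.map (fun x => ({x} : Multiset ℕ)) (Multiset.map m Finset.univ.val) := by
      rw [Multiset.map_map]
      rfl
    rw [h2, Multiset.sum_map_singleton]
  have hchoose : ∑ i, (m i + 1).choose 2 =
      ∑ x ∈ V, N x * (x + 1).choose 2 + ∑ i ∈ B, (m i + 1).choose 2 := by
    rw [← hsum (fun x => (x + 1).choose 2), hAd, hBd, Finset.sum_filter_add_sum_filter_not]
  have hB : ∀ i ∈ B, m i < 2 := by
    intro i hi
    rw [hBd] at hi
    have := (Finset.mem_filter.1 hi).2
    omega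
  -- the large multiplicities
  have key : gd d (∑ x ∈ V, rp (N x) x) ≤ (d + 2).choose 2 - ∑ x ∈ V, N x * (x + 1).choose 2 := by
    rcases V.eq_empty_or_nonempty with hVe | hVne
    · rw [hVe]
      simpa using gd_zero d
    · obtain ⟨Q, hQ⟩ : ∃ Q, Q = ∑ i ∈ A, m i ^ 2 := ⟨_, rfl⟩
      rw [← hQ] at hn
      rw [← hQ] at hall
      have hQ2 : Q = ∑ x ∈ V, N x * x ^ 2 := by rw [hQ, hsum (fun x => x ^ 2)]
      have hcard : A.card = ∑ x ∈ V, N x := by
        have h := hsum (fun _ => 1)
        simpa using h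
      obtain ⟨D, hD⟩ : ∃ D, D = ∑ x ∈ V, N x * (2 * x + 1) ^ 2 := ⟨_, rfl⟩
      have h4 : 4 * Q ≤ D := by
        rw [hQ2, hD, Finset.mul_sum]
        refine Finset.sum_le_sum fun x _ => ?_
        have : 4 * x ^ 2 ≤ (2 * x + 1) ^ 2 := by
          have h0 : (2 * x + 1) ^ 2 = 4 * x ^ 2 + 4 * x + 1 := by ring
          omega
        calc 4 * (N x * x ^ 2) = N x * (4 * x ^ 2) := by ring
          _ ≤ N x * (2 * x + 1) ^ 2 := Nat.mul_le_mul_left _ this
      have h25 : 4 * D ≤ 25 * Q := by
        rw [hQ2, hD, Finset.mul_sum, Finset.mul_sum]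
        refine Finset.sum_le_sum fun x hx => ?_
        have hx2 := hV2 x hx
        have : 4 * (2 * x + 1) ^ 2 ≤ 25 * x ^ 2 := by nlinarith
        calc 4 * (N x * (2 * x + 1) ^ 2) = N x * (4 * (2 * x + 1) ^ 2) := by ring
          _ ≤ N x * (25 * x ^ 2) := Nat.mul_le_mul_left _ this
          _ = 25 * (N x * x ^ 2) := by ring
      apply hA c d D V N
      refine ⟨hc, hVne, hV, hD, ?_, ?_⟩
      · rw [← hcard]
        calc 4 * A.card ^ 2 ≤ 4 * Q := Nat.mul_le_mul_left _ hn
          _ ≤ D := h4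
      · intro x hx
        have hx2 := hV2 x hx
        obtain ⟨i, hi⟩ : ∃ i, m i = x := by
          rw [hVd] at hx
          have h1 := (Finset.mem_filter.1 hx).1
          obtain ⟨i, -, hi⟩ := Finset.mem_image.1 h1
          exact ⟨i, hi⟩
        have h := hall i (by omega)
        rw [hi] at h
        obtain ⟨h1, h2⟩ := h
        refine ⟨hx2, ?_, ?_⟩
        · have h3 : 40 * c * (2 * x + 1) ≤ 2 * (50 * c * x) := by
            calc 40 * c * (2 * x + 1) = 20 * c * (2 * (2 * x + 1)) := by ring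
              _ ≤ 20 * c * (5 * x) := Nat.mul_le_mul_left _ (by omega)
              _ = 2 * (50 * c * x) := by ring
          calc (40 * c * (2 * x + 1)) ^ 2 ≤ (2 * (50 * c * x)) ^ 2 := Nat.pow_le_pow_left h3 2
            _ = 4 * (50 * c * x) ^ 2 := by ring
            _ ≤ 4 * Q := Nat.mul_le_mul_left _ h1
            _ ≤ D := h4
        · have h3 : 35 * (c * (x * N x)) ≤ 2 * (20 * c * (N x * (2 * x + 1))) := by
            calc 35 * (c * (x * N x)) = c * (N x * (35 * x)) := by ring
              _ ≤ c * (N x * (40 * (2 * x + 1))) :=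
                Nat.mul_le_mul_left _ (Nat.mul_le_mul_left _ (by omega))
              _ = 2 * (20 * c * (N x * (2 * x + 1))) := by ring
          have h5 : 4 * (49 * D) ≤ 4 * (20 * c * (N x * (2 * x + 1))) ^ 2 := by
            calc 4 * (49 * D) = 49 * (4 * D) := by ring
              _ ≤ 49 * (25 * Q) := Nat.mul_le_mul_left _ h25
              _ = 1225 * Q := by ring
              _ ≤ 1225 * (c * (x * N x)) ^ 2 := Nat.mul_le_mul_left _ h2
              _ = (35 * (c * (x * N x))) ^ 2 := by ring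
              _ ≤ (2 * (20 * c * (N x * (2 * x + 1)))) ^ 2 := Nat.pow_le_pow_left h3 2
              _ = 4 * (20 * c * (N x * (2 * x + 1))) ^ 2 := by ring
          omega
  -- the end
  have hs := small d m (∑ x ∈ V, rp (N x) x) B hB
  rw [← hAB] at hs
  have hfin : gd d (Multiset.map m Finset.univ.val) ≤
      (d + 2).choose 2 - ∑ i, (m i + 1).choose 2 := by
    rw [hchoose]
    omega
  unfold vdim
  have hcast : (∑ i, (Nat.choose (m i + 1) 2 : ℤ)) = ((∑ i, (m i + 1).choose 2 : ℕ) : ℤ) := by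
    push_cast
    rfl
  rw [hcast]
  rcases le_total (∑ i, (m i + 1).choose 2) ((d + 2).choose 2) with h | h
  · rw [← Nat.cast_sub h]
    exact le_trans (by exact_mod_cast hfin) (le_max_left _ _)
  · rw [Nat.sub_eq_zero_of_le h] at hfin
    exact le_trans (by exact_mod_cast hfin) (le_max_right _ _)

end Pool.Agent.Helper79.UC.FV
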