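import Pool.Agent.Helper27.UC.Goals5
import Pool.Agent.Helper79.UC.FV

/-!
PROJECT UC (MP_d3128a_ag), packet UC-FW: the final form of the unequal clause, two levels (helper79).
-/

set_option autoImplicit false

noncomputable section

namespace Pool.Agent.Helper79.UC.FW

open Module Pool.Agent.Helper97.Tate Pool.Agent.Helper1.All

open Pool.Agent.Helper27.UC (gd rp LW S_ALLW S_GDG S_FW)

open Pool.Agent.Helper79.UC.FV (gd_zero small)

theorem t (hA : S_ALLW) (hG : S_GDG) : S_FW := by
  classical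
  intro c n d m hc hV hall
  apply hG
  -- the data
  obtain ⟨V, hVd⟩ : ∃ V, V = (Finset.univ.image m).filter (fun x => 2 ≤ x) := ⟨_, rfl⟩
  obtain ⟨A, hAd⟩ : ∃ A, A = Finset.univ.filter (fun i => 2 ≤ m i) := ⟨_, rfl⟩
  obtain ⟨B, hBd⟩ : ∃ B, B = Finset.univ.filter (fun i => ¬ 2 ≤ m i) := ⟨_, rfl⟩
  rw [← hVd] at hV
  rw [← hAd] at hall
  let N : ℕ → ℕ := fun x => (Finset.univ.filter (fun j => m j = x)).card
  have hVA : A.image m = V := by
    ext x
    rw [hAd, hVd]
    simp only [Finset.mem_image, Finset.mem_filter, Finset.mem_univ, true_and]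
    constructor
    · rintro ⟨i, h1, h2⟩
      exact ⟨⟨i, h2⟩, by omega⟩
    · rintro ⟨⟨i, h1⟩, h2⟩
      exact ⟨i, by omega, h1⟩
  have hV2 : ∀ x ∈ V, 2 ≤ x := by
    intro x hx
    rw [hVd] at hx
    exact (Finset.mem_filter.1 hx).2
  have hfil : ∀ x ∈ V, A.filter (fun j => m j = x) = Finset.univ.filter (fun j => m j = x) := by
    intro x hx
    have h2 := hV2 x hx
    rw [hAd]
    ext j
    simp only [Finset.mem_filter, Finset.mem_univ, true_and]
    constructor
    · exact fun h => h.2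
    · exact fun h => ⟨by omega, h⟩
  have hsum : ∀ F : ℕ → ℕ, ∑ i ∈ A, F (m i) = ∑ x ∈ V, N x * F x := by
    intro F
    rw [Finset.sum_comp F m, hVA]
    refine Finset.sum_congr rfl fun x hx => ?_
    rw [hfil x hx, smul_eq_mul]
  have hmul : ∑ i ∈ A, ({m i} : Multiset ℕ) = ∑ x ∈ V, rp (N x) x := by
    rw [Finset.sum_comp (fun x => ({x} : Multiset ℕ)) m, hVA]
    refine Finset.sum_congr rfl fun x hx => ?_
    rw [hfil x hx, Multiset.nsmul_singleton]
  have hAB : Multiset.map m Finset.univ.val =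
      ∑ x ∈ V, rp (N x) x + ∑ i ∈ B, ({m i} : Multiset ℕ) := by
    rw [← hmul, hAd, hBd, Finset.sum_filter_add_sum_filter_not]
    have h1 : ∑ i, ({m i} : Multiset ℕ) =
        (Multiset.map (fun i => ({m i} : Multiset ℕ)) Finset.univ.val).sum := rfl
    rw [h1]
    have h2 : Multiset.map (fun i => ({m i} : Multiset ℕ)) Finset.univ.val =
        Multiset.map (fun x => ({x} : Multiset ℕ)) (Multiset.map m Finset.univ.val) := by
      rw [Multiset.map_map]
      rfl
    rw [h2, Multiset.sum_map_singleton]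
  have hchoose : ∑ i, (m i + 1).choose 2 =
      ∑ x ∈ V, N x * (x + 1).choose 2 + ∑ i ∈ B, (m i + 1).choose 2 := by
    rw [← hsum (fun x => (x + 1).choose 2), hAd, hBd, Finset.sum_filter_add_sum_filter_not]
  have hB : ∀ i ∈ B, m i < 2 := by
    intro i hi
    rw [hBd] at hi
    have := (Finset.mem_filter.1 hi).2
    omega
  -- the large multiplicities
  have key : gd d (∑ x ∈ V, rp (N x) x) ≤ (d + 2).choose 2 - ∑ x ∈ V, N x * (x + 1).choose 2 := by
    rcases V.eq_empty_or_nonempty with hVe | hVne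
    · rw [hVe]
      simpa using gd_zero d
    · obtain ⟨Q, hQ⟩ : ∃ Q, Q = ∑ i ∈ A, m i ^ 2 := ⟨_, rfl⟩
      rw [← hQ] at hall
      have hQ2 : Q = ∑ x ∈ V, N x * x ^ 2 := by rw [hQ, hsum (fun x => x ^ 2)]
      apply hA c d Q V N
      refine ⟨hc, hVne, hV, hQ2, ?_⟩
      intro x hx
      have hx2 := hV2 x hx
      obtain ⟨i, hi⟩ : ∃ i, m i = x := by
        rw [hVd] at hx
        have h1 := (Finset.mem_filter.1 hx).1
        obtain ⟨i, -, hi⟩ := Finset.mem_image.1 h1
        exact ⟨i, hi⟩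
      have h := hall i (by omega)
      rw [hi] at h
      exact ⟨by omega, h.1, h.2⟩
  -- the end
  have hs := small d m (∑ x ∈ V, rp (N x) x) B hB
  rw [← hAB] at hs
  have hfin : gd d (Multiset.map m Finset.univ.val) ≤
      (d + 2).choose 2 - ∑ i, (m i + 1).choose 2 := by
    rw [hchoose]
    omega
  unfold vdim
  have hcast : (∑ i, (Nat.choose (m i + 1) 2 : ℤ)) = ((∑ i, (m i + 1).choose 2 : ℕ) : ℤ) := by
    push_cast
    rfl
  rw [hcast]
  rcases le_total (∑ i, (m i + 1).choose 2) ((d + 2).choose 2) with h | h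
  · rw [← Nat.cast_sub h]
    exact le_trans (by exact_mod_cast hfin) (le_max_left _ _)
  · rw [Nat.sub_eq_zero_of_le h] at hfin
    exact le_trans (by exact_mod_cast hfin) (le_max_right _ _)

end Pool.Agent.Helper79.UC.FW
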