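import Pool.Agent.Helper27.UC.Goals7
import Pool.Agent.Helper79.UC.ALLN

/-!
PROJECT UC (MP_d3128a_ag), packet UC-ALLG: all degrees from the critical ones, repeated multiplicities (helper79).
-/

set_option autoImplicit false

noncomputable section

namespace Pool.Agent.Helper79.UC.ALLG

open Pool.Agent.Helper27.UC (gd S_MON S_ONEG S_ALLG HG CR)

open Pool.Agent.Helper79.UC.ALLN (all_of_one sum_choose choose_two')

theorem t (hO : Pool.Agent.Helper27.UC.S_ONEG) (hM : S_MON) : Pool.Agent.Helper27.UC.S_ALLG := by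
  intro K n m d g P hL
  have hs := sum_choose (4 • g + P.map Prod.snd)
  refine all_of_one hM _ _ ?_ (fun d h1 h2 => hO K n m d g P hL ⟨by rw [hs]; exact h1,
    by rw [hs]; exact h2⟩) d
  -- positivity
  obtain ⟨hK, hKn, hnm, hc, hg, hP, -, -⟩ := hL
  have hn1 : 1 ≤ n := by
    have h1 : 1 ≤ K ^ 4 := Nat.one_le_pow _ _ hK
    omega
  obtain ⟨v, hv, hv1⟩ : ∃ v ∈ 4 • g + P.map Prod.snd, 1 ≤ v := by
    rcases Nat.eq_zero_or_pos (Multiset.card P) with h0 | h0
    · have h2 : 0 < Multiset.card g := by omega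
      obtain ⟨v, hv⟩ := Multiset.card_pos_iff_exists_mem.1 h2
      refine ⟨v, Multiset.mem_add.2 (Or.inl (Multiset.mem_nsmul.2 ⟨by norm_num, hv⟩)), ?_⟩
      have h3 := (hg v hv).2.1
      rcases Nat.eq_zero_or_pos v with h4 | h4
      · rw [h4, mul_zero] at h3
        omega
      · exact h4
    · obtain ⟨p, hp⟩ := Multiset.card_pos_iff_exists_mem.1 h0
      refine ⟨p.2, Multiset.mem_add.2 (Or.inr (Multiset.mem_map_of_mem _ hp)), ?_⟩
      have h3 := (hP p hp).2.2.1
      rcases Nat.eq_zero_or_pos p.2 with h4 | h4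
      · rw [h4, mul_zero] at h3
        omega
      · exact h4
  by_contra hcon
  have h0 : ((4 • g + P.map Prod.snd).map fun v => (v + 1).choose 2).sum = 0 := by omega
  have h1 := (Multiset.sum_eq_zero_iff.1 h0) ((v + 1).choose 2) (Multiset.mem_map_of_mem _ hv)
  have h2 := choose_two' v
  rw [h1] at h2
  have : 0 < v * (v + 1) := by positivity
  omega

end Pool.Agent.Helper79.UC.ALLG
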