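import Pool.Agent.Helper27.UC.Goals7

/-!
PROJECT UC (MP_d3128a_ag), packet UC-FT: tagged lists (helper79).
-/

set_option autoImplicit false

noncomputable section

namespace Pool.Agent.Helper79.UC.FT

open Pool.Agent.Helper27.UC (gd S_ALLG S_BALK S_TGP S_FT HG)

/-- a largest element of a nonempty multiset -/
theorem exists_max {α : Type} (f : α → ℕ) (T : Multiset α) (h : 0 < Multiset.card T) :
    ∃ p ∈ T, ∀ q ∈ T, f q ≤ f p := by
  induction T using Multiset.induction_on with
  | empty => simp at h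
  | cons a T ih =>
    rcases Nat.eq_zero_or_pos (Multiset.card T) with h0 | h0
    · rw [Multiset.card_eq_zero] at h0
      subst h0
      refine ⟨a, by simp, fun q hq => ?_⟩
      have : q = a := by simpa using hq
      rw [this]
    · obtain ⟨p, hp, hm⟩ := ih h0
      rcases le_total (f a) (f p) with hle | hle
      · refine ⟨p, Multiset.mem_cons_of_mem hp, fun q hq => ?_⟩
        rcases Multiset.mem_cons.1 hq with rfl | hq
        · exact hle
        · exact hm q hq
      · refine ⟨a, Multiset.mem_cons_self _ _, fun q hq => ?_⟩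
        rcases Multiset.mem_cons.1 hq with rfl | hq
        · exact le_rfl
        · exact (hm q hq).trans hle

theorem t (hA : Pool.Agent.Helper27.UC.S_ALLG) (hB : Pool.Agent.Helper27.UC.S_BALK)
    (hT : Pool.Agent.Helper27.UC.S_TGP) : Pool.Agent.Helper27.UC.S_FT := by
  intro K
  obtain ⟨N1, hN1⟩ := hB K
  refine ⟨10 ^ 9 * (K + 1) ^ 4 + N1 + 1, ?_⟩
  intro d n T hc hC hsum hall
  have hK4 : K + 1 ≤ (K + 1) ^ 4 := Nat.le_self_pow (by norm_num) _
  have hn0 : 0 < Multiset.card T := by omega
  obtain ⟨p0, hp0, hm0⟩ := exists_max Prod.snd T hn0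
  rcases le_or_gt p0.2 (n ^ 5) with hsmall | hlarge
  · -- small multiplicities
    have h := hN1 (T.map Prod.snd) n p0.2 d (by rw [Multiset.card_map, hc]) (by omega) ?_ hsmall
    · exact h
    · intro v hv
      obtain ⟨p, hp, rfl⟩ := Multiset.mem_map.1 hv
      exact ⟨hm0 p hp, (hall p0 hp0).2.2 p hp⟩
  · -- large multiplicities
    obtain ⟨p1, hp1, hm1⟩ := exists_max Prod.fst T hn0
    have hyn : ∀ p ∈ T, n ≤ p.2 := by
      intro p hp
      by_contra hcon
      have h1 := (hall p0 hp0).2.2 p hp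
      have h2 : K * p.2 ≤ n * n := Nat.mul_le_mul (by omega) (by omega)
      have h3 : n * n ≤ n ^ 5 := by
        have h4 : n ^ 2 ≤ n ^ 5 := Nat.pow_le_pow_right (by omega) (by norm_num)
        nlinarith
      omega
    have hdiff : ∀ p ∈ T, p.1 - p.2 ≤ n := by
      intro p hp
      have h1 : p.1 - p.2 ≤ (T.map fun p => p.1 - p.2).sum :=
        Multiset.single_le_sum (fun x _ => Nat.zero_le x) _ (Multiset.mem_map_of_mem _ hp)
      have h2 : 1 * (T.map fun p => p.1 - p.2).sum ≤
          (10 ^ 9 * (K + 1) ^ 4 + N1 + 1) * (T.map fun p => p.1 - p.2).sum :=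
        Nat.mul_le_mul (by omega) le_rfl
      omega
    have hm : ∀ p ∈ T, p1.1 ≤ (K + 1) * p.2 := by
      intro p hp
      have h1 := hdiff p1 hp1
      have h2 := (hall p1 hp1).1
      have h3 := (hall p1 hp1).2.2 p hp
      have h4 := hyn p hp
      have h5 : (K + 1) * p.2 = K * p.2 + p.2 := by ring
      omega
    have hnm : n ≤ p1.1 := (hyn p1 hp1).trans (hall p1 hp1).1
    obtain ⟨g, P, hgP, hHG⟩ := hT (K + 1) n p1.1 T (by omega) hnm hc (by omega) (by
      intro p hp
      refine ⟨(hall p hp).1, hm1 p hp, hm p hp, ?_⟩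
      have := (hall p hp).2.1
      omega) (by
      have h2 : 10 ^ 9 * (K + 1) ^ 4 * (T.map fun p => p.1 - p.2).sum ≤
          (10 ^ 9 * (K + 1) ^ 4 + N1 + 1) * (T.map fun p => p.1 - p.2).sum :=
        Nat.mul_le_mul (by omega) le_rfl
      omega)
    rw [hgP]
    exact hA (K + 1) n p1.1 d g P hHG

end Pool.Agent.Helper79.UC.FT
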